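import Pool.Agent.Run7.h774.BL.Base

/-!
Piece CNT of project BL (helper292), by helper774.
-/

set_option autoImplicit false

namespace Pool.Agent.Run7.h774.BL

open Finset Classical
open Pool.Agent.Run7.h292.BL

lemma card_ind {X : Type} [Fintype X] (P : X → Prop) [DecidablePred P] : ((#{x : X | P x} : ℕ) : ℝ) = ∑ x, if P x then (1 : ℝ) else 0 := by
  rw [Finset.card_filter]
  push_cast
  rfl

theorem t_CNT : StCnt := by
  intro V _ _ m hm
  have hn : (0 : ℝ) < Fintype.card V := by exact_mod_cast Fintype.card_pos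
  have hm2 : (2 : ℝ) ≤ m := by exact_mod_cast hm
  refine ⟨?_, ?_, ?_⟩
  · intro u v huv
    rw [card_ind]
    have h1 : ∀ φ : Fin m → V, (if (∃ i, φ i = u) ∧ ∃ i, φ i = v then (1 : ℝ) else 0) ≤
        ∑ i, ∑ j : Fin m, (if i ≠ j then (if φ i = u ∧ φ j = v then (1 : ℝ) else 0) else 0) := by
      intro φ
      split_ifs with h
      · obtain ⟨⟨i, hi⟩, ⟨j, hj⟩⟩ := h
        have hij : i ≠ j := fun h => huv (by rw [← hi, ← hj, h])
        calc (1 : ℝ) = (if i ≠ j then (if φ i = u ∧ φ j = v then (1 : ℝ) else 0) else 0) := by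
              rw [if_pos hij, if_pos ⟨hi, hj⟩]
          _ ≤ ∑ j : Fin m, (if i ≠ j then (if φ i = u ∧ φ j = v then (1 : ℝ) else 0) else 0) :=
              Finset.single_le_sum (f := fun j => (if i ≠ j then (if φ i = u ∧ φ j = v then (1 : ℝ) else 0) else 0))
                (fun j _ => by split_ifs <;> norm_num) (Finset.mem_univ j)
          _ ≤ _ := Finset.single_le_sum
                (f := fun i => ∑ j : Fin m, (if i ≠ j then (if φ i = u ∧ φ j = v then (1 : ℝ) else 0) else 0))
                (fun i _ => Finset.sum_nonneg fun j _ => by split_ifs <;> norm_num) (Finset.mem_univ i)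
      · exact Finset.sum_nonneg fun i _ => Finset.sum_nonneg fun j _ => by split_ifs <;> norm_num
    have h2 : (Fintype.card V : ℝ) ^ 2 * ∑ φ : Fin m → V,
        ∑ i, ∑ j : Fin m, (if i ≠ j then (if φ i = u ∧ φ j = v then (1 : ℝ) else 0) else 0) =
        (m : ℝ) * (m - 1) * (Fintype.card V : ℝ) ^ m := by
      have e1 : ∑ φ : Fin m → V, ∑ i, ∑ j : Fin m, (if i ≠ j then (if φ i = u ∧ φ j = v then (1 : ℝ) else 0) else 0) =
          ∑ i, ∑ j : Fin m, ∑ φ : Fin m → V, (if i ≠ j then (if φ i = u ∧ φ j = v then (1 : ℝ) else 0) else 0) := by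
        rw [Finset.sum_comm]
        refine Finset.sum_congr rfl fun i _ => ?_
        rw [Finset.sum_comm]
      have e2 : ∀ i j : Fin m, (Fintype.card V : ℝ) ^ 2 *
          ∑ φ : Fin m → V, (if i ≠ j then (if φ i = u ∧ φ j = v then (1 : ℝ) else 0) else 0) =
          (if i ≠ j then (1 : ℝ) else 0) * (Fintype.card V : ℝ) ^ m := by
        intro i j
        by_cases h : i ≠ j
        · simp only [if_pos h, one_mul]
          rw [two_pt h (fun x y => if x = u ∧ y = v then (1 : ℝ) else 0)]
          have : ∑ x, ∑ y, (if x = u ∧ y = v then (1 : ℝ) else 0) = 1 := by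
            rw [Finset.sum_eq_single u, Finset.sum_eq_single v]
            · simp
            · intro y _ hy; simp [hy]
            · simp
            · intro x _ hx; simp [hx]
            · simp
          rw [this, mul_one]
        · simp only [if_neg h]; simp
      rw [e1]
      simp only [Finset.mul_sum] at e2 ⊢
      simp only [e2]
      simp only [← Finset.sum_mul]
      rw [count_two m (by omega)]
    rw [← h2]
    exact mul_le_mul_of_nonneg_left (Finset.sum_le_sum fun φ _ => h1 φ) (by positivity)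
  · intro u v w huv huw hvw
    rw [card_ind]
    have h1 : ∀ φ : Fin m → V, (if (∃ i, φ i = u) ∧ (∃ i, φ i = v) ∧ ∃ i, φ i = w then (1 : ℝ) else 0) ≤
        ∑ i, ∑ j : Fin m, ∑ k : Fin m, (if i ≠ j ∧ i ≠ k ∧ j ≠ k then
          (if φ i = u ∧ φ j = v ∧ φ k = w then (1 : ℝ) else 0) else 0) := by
      intro φ
      have hnn : ∀ i j k : Fin m, (0 : ℝ) ≤ (if i ≠ j ∧ i ≠ k ∧ j ≠ k then
          (if φ i = u ∧ φ j = v ∧ φ k = w then (1 : ℝ) else 0) else 0) := fun i j k => by split_ifs <;> norm_num
      split_ifs with h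
      · obtain ⟨⟨i, hi⟩, ⟨j, hj⟩, ⟨k, hk⟩⟩ := h
        have hij : i ≠ j := fun h => huv (by rw [← hi, ← hj, h])
        have hik : i ≠ k := fun h => huw (by rw [← hi, ← hk, h])
        have hjk : j ≠ k := fun h => hvw (by rw [← hj, ← hk, h])
        calc (1 : ℝ) = (if i ≠ j ∧ i ≠ k ∧ j ≠ k then
              (if φ i = u ∧ φ j = v ∧ φ k = w then (1 : ℝ) else 0) else 0) := by
              rw [if_pos ⟨hij, hik, hjk⟩, if_pos ⟨hi, hj, hk⟩]
          _ ≤ ∑ k : Fin m, (if i ≠ j ∧ i ≠ k ∧ j ≠ k then
              (if φ i = u ∧ φ j = v ∧ φ k = w then (1 : ℝ) else 0) else 0) :=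
              Finset.single_le_sum (f := fun k => (if i ≠ j ∧ i ≠ k ∧ j ≠ k then
                (if φ i = u ∧ φ j = v ∧ φ k = w then (1 : ℝ) else 0) else 0))
                (fun k _ => hnn i j k) (Finset.mem_univ k)
          _ ≤ ∑ j : Fin m, ∑ k : Fin m, (if i ≠ j ∧ i ≠ k ∧ j ≠ k then
              (if φ i = u ∧ φ j = v ∧ φ k = w then (1 : ℝ) else 0) else 0) :=
              Finset.single_le_sum (f := fun j => ∑ k : Fin m, (if i ≠ j ∧ i ≠ k ∧ j ≠ k then
                (if φ i = u ∧ φ j = v ∧ φ k = w then (1 : ℝ) else 0) else 0))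
                (fun j _ => Finset.sum_nonneg fun k _ => hnn i j k) (Finset.mem_univ j)
          _ ≤ _ := Finset.single_le_sum (f := fun i => ∑ j : Fin m, ∑ k : Fin m, (if i ≠ j ∧ i ≠ k ∧ j ≠ k then
                (if φ i = u ∧ φ j = v ∧ φ k = w then (1 : ℝ) else 0) else 0))
                (fun i _ => Finset.sum_nonneg fun j _ => Finset.sum_nonneg fun k _ => hnn i j k) (Finset.mem_univ i)
      · exact Finset.sum_nonneg fun i _ => Finset.sum_nonneg fun j _ => Finset.sum_nonneg fun k _ => hnn i j k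
    have h2 : (Fintype.card V : ℝ) ^ 3 * ∑ φ : Fin m → V,
        ∑ i, ∑ j : Fin m, ∑ k : Fin m, (if i ≠ j ∧ i ≠ k ∧ j ≠ k then
          (if φ i = u ∧ φ j = v ∧ φ k = w then (1 : ℝ) else 0) else 0) =
        (m : ℝ) * (m - 1) * (m - 2) * (Fintype.card V : ℝ) ^ m := by
      have e1 : ∑ φ : Fin m → V, ∑ i, ∑ j : Fin m, ∑ k : Fin m, (if i ≠ j ∧ i ≠ k ∧ j ≠ k then
            (if φ i = u ∧ φ j = v ∧ φ k = w then (1 : ℝ) else 0) else 0) =
          ∑ i, ∑ j : Fin m, ∑ k : Fin m, ∑ φ : Fin m → V, (if i ≠ j ∧ i ≠ k ∧ j ≠ k then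
            (if φ i = u ∧ φ j = v ∧ φ k = w then (1 : ℝ) else 0) else 0) := by
        rw [Finset.sum_comm]
        refine Finset.sum_congr rfl fun i _ => ?_
        rw [Finset.sum_comm]
        refine Finset.sum_congr rfl fun j _ => ?_
        rw [Finset.sum_comm]
      have e2 : ∀ i j k : Fin m, (Fintype.card V : ℝ) ^ 3 *
          ∑ φ : Fin m → V, (if i ≠ j ∧ i ≠ k ∧ j ≠ k then
            (if φ i = u ∧ φ j = v ∧ φ k = w then (1 : ℝ) else 0) else 0) =
          (if i ≠ j ∧ i ≠ k ∧ j ≠ k then (1 : ℝ) else 0) * (Fintype.card V : ℝ) ^ m := by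
        intro i j k
        by_cases h : i ≠ j ∧ i ≠ k ∧ j ≠ k
        · simp only [if_pos h, one_mul]
          rw [three_pt h.1 h.2.1 h.2.2 (fun x y z => if x = u ∧ y = v ∧ z = w then (1 : ℝ) else 0)]
          have : ∑ x, ∑ y, ∑ z, (if x = u ∧ y = v ∧ z = w then (1 : ℝ) else 0) = 1 := by
            rw [Finset.sum_eq_single u, Finset.sum_eq_single v, Finset.sum_eq_single w]
            · simp
            · intro y _ hy; simp [hy]
            · simp
            · intro y _ hy; simp [hy]
            · simp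
            · intro x _ hx; simp [hx]
            · simp
          rw [this, mul_one]
        · simp only [if_neg h]; simp
      rw [e1]
      simp only [Finset.mul_sum] at e2 ⊢
      simp only [e2]
      simp only [← Finset.sum_mul]
      rw [count_three m hm]
    calc (Fintype.card V : ℝ) ^ 3 *
          ∑ φ : Fin m → V, (if (∃ i, φ i = u) ∧ (∃ i, φ i = v) ∧ ∃ i, φ i = w then (1 : ℝ) else 0)
        ≤ (m : ℝ) * (m - 1) * (m - 2) * (Fintype.card V : ℝ) ^ m := by
          rw [← h2]
          exact mul_le_mul_of_nonneg_left (Finset.sum_le_sum fun φ _ => h1 φ) (by positivity)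
      _ ≤ (m : ℝ) ^ 3 * (Fintype.card V : ℝ) ^ m := by
          refine mul_le_mul_of_nonneg_right ?_ (by positivity)
          nlinarith
  · rw [card_ind]
    have h1 : ∀ φ : Fin m → V, (if ¬ Function.Injective φ then (1 : ℝ) else 0) ≤
        ∑ i, ∑ j : Fin m, (if i ≠ j then (if φ i = φ j then (1 : ℝ) else 0) else 0) := by
      intro φ
      split_ifs with h
      · exact Finset.sum_nonneg fun i _ => Finset.sum_nonneg fun j _ => by split_ifs <;> norm_num
      · obtain ⟨i, j, hij, hne⟩ : ∃ i j, φ i = φ j ∧ i ≠ j := by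
          unfold Function.Injective at h
          push Not at h
          obtain ⟨i, j, h1, h2⟩ := h
          exact ⟨i, j, h1, h2⟩
        calc (1 : ℝ) = (if i ≠ j then (if φ i = φ j then (1 : ℝ) else 0) else 0) := by
              rw [if_pos hne, if_pos hij]
          _ ≤ ∑ j : Fin m, (if i ≠ j then (if φ i = φ j then (1 : ℝ) else 0) else 0) :=
              Finset.single_le_sum (f := fun j => (if i ≠ j then (if φ i = φ j then (1 : ℝ) else 0) else 0))
                (fun j _ => by split_ifs <;> norm_num) (Finset.mem_univ j)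
          _ ≤ _ := Finset.single_le_sum
                (f := fun i => ∑ j : Fin m, (if i ≠ j then (if φ i = φ j then (1 : ℝ) else 0) else 0))
                (fun i _ => Finset.sum_nonneg fun j _ => by split_ifs <;> norm_num) (Finset.mem_univ i)
    have h2 : (Fintype.card V : ℝ) ^ 2 * ∑ φ : Fin m → V,
        ∑ i, ∑ j : Fin m, (if i ≠ j then (if φ i = φ j then (1 : ℝ) else 0) else 0) =
        (m : ℝ) * (m - 1) * ((Fintype.card V : ℝ) ^ m * Fintype.card V) := by
      have e1 : ∑ φ : Fin m → V, ∑ i, ∑ j : Fin m, (if i ≠ j then (if φ i = φ j then (1 : ℝ) else 0) else 0) =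
          ∑ i, ∑ j : Fin m, ∑ φ : Fin m → V, (if i ≠ j then (if φ i = φ j then (1 : ℝ) else 0) else 0) := by
        rw [Finset.sum_comm]
        refine Finset.sum_congr rfl fun i _ => ?_
        rw [Finset.sum_comm]
      have e2 : ∀ i j : Fin m, (Fintype.card V : ℝ) ^ 2 *
          ∑ φ : Fin m → V, (if i ≠ j then (if φ i = φ j then (1 : ℝ) else 0) else 0) =
          (if i ≠ j then (1 : ℝ) else 0) * ((Fintype.card V : ℝ) ^ m * Fintype.card V) := by
        intro i j
        by_cases h : i ≠ j
        · simp only [if_pos h, one_mul]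
          rw [two_pt h (fun x y => if x = y then (1 : ℝ) else 0)]
          have : ∑ x : V, ∑ y : V, (if x = y then (1 : ℝ) else 0) = Fintype.card V := by simp
          rw [this]
        · simp only [if_neg h]; simp
      rw [e1]
      simp only [Finset.mul_sum] at e2 ⊢
      simp only [e2]
      simp only [← Finset.sum_mul]
      rw [count_two m (by omega)]
    have h3 : (Fintype.card V : ℝ) ^ 2 * ∑ φ : Fin m → V, (if ¬ Function.Injective φ then (1 : ℝ) else 0) ≤
        (m : ℝ) * (m - 1) * ((Fintype.card V : ℝ) ^ m * Fintype.card V) := by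
      rw [← h2]
      exact mul_le_mul_of_nonneg_left (Finset.sum_le_sum fun φ _ => h1 φ) (by positivity)
    refine le_of_mul_le_mul_left ?_ hn
    calc (Fintype.card V : ℝ) * ((Fintype.card V : ℝ) *
          ∑ φ : Fin m → V, (if ¬ Function.Injective φ then (1 : ℝ) else 0))
        = (Fintype.card V : ℝ) ^ 2 * ∑ φ : Fin m → V, (if ¬ Function.Injective φ then (1 : ℝ) else 0) := by ring
      _ ≤ (m : ℝ) * (m - 1) * ((Fintype.card V : ℝ) ^ m * Fintype.card V) := h3
      _ ≤ (Fintype.card V : ℝ) * ((m : ℝ) ^ 2 * (Fintype.card V : ℝ) ^ m) := by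
          have h4 : 0 ≤ (Fintype.card V : ℝ) ^ m * Fintype.card V := by positivity
          nlinarith

end Pool.Agent.Run7.h774.BL
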