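import Pool.Agent.Run7.h774.BL.Base

/-!
Piece MOM1 of project BL (helper292), by helper774.
-/

set_option autoImplicit false

namespace Pool.Agent.Run7.h774.BL

open Finset Classical
open Pool.Agent.Run7.h292.BL

lemma dO_eq {V : Type} [Fintype V] (A : V → V → Prop) (v : V) : dO A v = ∑ u, if A v u then (1 : ℝ) else 0 := by
  unfold dO
  rw [Finset.card_filter]
  push_cast
  rfl

theorem t_MOM1 : StMom1 := by
  intro V _ _ A m hm hA
  set a : V → V → ℝ := fun u v => if A u v then (1 : ℝ) else 0 with ha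
  have ha0 : ∀ u v, 0 ≤ a u v := fun u v => by simp only [ha]; split_ifs <;> norm_num
  have h1 : ∀ φ : Fin m → V, ∑ i, ∑ j : Fin m, ∑ k : Fin m,
      (if i ≠ j ∧ i ≠ k ∧ j ≠ k then a (φ i) (φ j) * a (φ i) (φ k) else 0) ≤ ∑ i, dO (pull A φ) i ^ 2 := by
    intro φ
    refine Finset.sum_le_sum fun i _ => ?_
    rw [dO_eq, sq, Finset.sum_mul_sum]
    refine Finset.sum_le_sum fun j _ => Finset.sum_le_sum fun k _ => ?_
    change _ ≤ a (φ i) (φ j) * a (φ i) (φ k)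
    split_ifs
    · exact le_rfl
    · exact mul_nonneg (ha0 _ _) (ha0 _ _)
  have h2 : (Fintype.card V : ℝ) ^ 3 * ∑ φ : Fin m → V, ∑ i, ∑ j : Fin m, ∑ k : Fin m,
      (if i ≠ j ∧ i ≠ k ∧ j ≠ k then a (φ i) (φ j) * a (φ i) (φ k) else 0) =
      (m : ℝ) * (m - 1) * (m - 2) * (Fintype.card V : ℝ) ^ m * ∑ v, dO A v ^ 2 := by
    have e1 : ∑ φ : Fin m → V, ∑ i, ∑ j : Fin m, ∑ k : Fin m,
        (if i ≠ j ∧ i ≠ k ∧ j ≠ k then a (φ i) (φ j) * a (φ i) (φ k) else 0) =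
        ∑ i, ∑ j : Fin m, ∑ k : Fin m, ∑ φ : Fin m → V,
        (if i ≠ j ∧ i ≠ k ∧ j ≠ k then a (φ i) (φ j) * a (φ i) (φ k) else 0) := by
      rw [Finset.sum_comm]
      refine Finset.sum_congr rfl fun i _ => ?_
      rw [Finset.sum_comm]
      refine Finset.sum_congr rfl fun j _ => ?_
      rw [Finset.sum_comm]
    have e3 : ∑ v, dO A v ^ 2 = ∑ u, ∑ v, ∑ w, a u v * a u w := by
      refine Finset.sum_congr rfl fun u _ => ?_
      rw [dO_eq, sq, Finset.sum_mul_sum]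
    have e2 : ∀ i j k : Fin m, (Fintype.card V : ℝ) ^ 3 * ∑ φ : Fin m → V,
        (if i ≠ j ∧ i ≠ k ∧ j ≠ k then a (φ i) (φ j) * a (φ i) (φ k) else 0) =
        (if i ≠ j ∧ i ≠ k ∧ j ≠ k then (1 : ℝ) else 0) * ((Fintype.card V : ℝ) ^ m * ∑ v, dO A v ^ 2) := by
      intro i j k
      by_cases h : i ≠ j ∧ i ≠ k ∧ j ≠ k
      · simp only [if_pos h, one_mul]
        rw [e3]
        exact three_pt h.1 h.2.1 h.2.2 (fun u v w => a u v * a u w)
      · simp only [if_neg h]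
        simp
    rw [e1]
    simp only [Finset.mul_sum] at e2 ⊢
    simp only [e2]
    simp only [← Finset.mul_sum, ← Finset.sum_mul]
    rw [count_three m hm]
    ring
  rw [← h2]
  exact mul_le_mul_of_nonneg_left (Finset.sum_le_sum fun φ _ => h1 φ) (by positivity)

end Pool.Agent.Run7.h774.BL
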