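import Pool.Agent.Run7.h292.BL.Defs

/-!
Project BL (helper292), helper774: sums over maps.
-/

set_option autoImplicit false
set_option linter.unusedSectionVars false

namespace Pool.Agent.Run7.h774.BL

open Finset Classical

section
variable {ι V : Type} [Fintype ι] [DecidableEq ι] [Fintype V]

lemma resample (i : ι) (F : (ι → V) → ℝ) :
    ∑ φ : ι → V, ∑ u : V, F (Function.update φ i u) = (Fintype.card V : ℝ) * ∑ φ : ι → V, F φ := by
  have h1 : ∑ φ : ι → V, ∑ u : V, F (Function.update φ i u) =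
      ∑ x : (ι → V) × V, F (Function.update x.1 i x.2) := (Fintype.sum_prod_type' _).symm
  let e : (ι → V) × V ≃ (ι → V) × V :=
    { toFun := fun x => (Function.update x.1 i x.2, x.1 i)
      invFun := fun x => (Function.update x.1 i x.2, x.1 i)
      left_inv := fun x => by simp
      right_inv := fun x => by simp }
  have h2 : ∑ x : (ι → V) × V, F (Function.update x.1 i x.2) = ∑ x : (ι → V) × V, F x.1 :=
    Equiv.sum_comp e (fun x => F x.1)
  rw [h1, h2, Fintype.sum_prod_type, Finset.mul_sum]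
  refine Finset.sum_congr rfl fun φ _ => ?_
  simp

lemma one_pt {m : ℕ} (i : Fin m) (g : V → ℝ) :
    (Fintype.card V : ℝ) * ∑ φ : Fin m → V, g (φ i) = (Fintype.card V : ℝ) ^ m * ∑ u, g u := by
  rw [← resample i (fun φ => g (φ i))]
  simp

lemma two_pt {m : ℕ} {i j : Fin m} (hij : i ≠ j) (g : V → V → ℝ) :
    (Fintype.card V : ℝ) ^ 2 * ∑ φ : Fin m → V, g (φ i) (φ j) =
      (Fintype.card V : ℝ) ^ m * ∑ u, ∑ v, g u v := by
  have h1 := resample i (fun φ : Fin m → V => g (φ i) (φ j))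
  simp only [Function.update_self, Function.update_of_ne hij.symm] at h1
  rw [Finset.sum_comm] at h1
  calc (Fintype.card V : ℝ) ^ 2 * ∑ φ : Fin m → V, g (φ i) (φ j)
      = (Fintype.card V : ℝ) * ∑ u, ∑ φ : Fin m → V, g u (φ j) := by rw [h1]; ring
    _ = (Fintype.card V : ℝ) ^ m * ∑ u, ∑ v, g u v := by
        rw [Finset.mul_sum, Finset.mul_sum]
        exact Finset.sum_congr rfl fun u _ => one_pt j (g u)

lemma three_pt {m : ℕ} {i j k : Fin m} (hij : i ≠ j) (hik : i ≠ k) (hjk : j ≠ k) (g : V → V → V → ℝ) :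
    (Fintype.card V : ℝ) ^ 3 * ∑ φ : Fin m → V, g (φ i) (φ j) (φ k) =
      (Fintype.card V : ℝ) ^ m * ∑ u, ∑ v, ∑ w, g u v w := by
  have h1 := resample i (fun φ : Fin m → V => g (φ i) (φ j) (φ k))
  simp only [Function.update_self, Function.update_of_ne hij.symm, Function.update_of_ne hik.symm] at h1
  rw [Finset.sum_comm] at h1
  calc (Fintype.card V : ℝ) ^ 3 * ∑ φ : Fin m → V, g (φ i) (φ j) (φ k)
      = (Fintype.card V : ℝ) ^ 2 * ∑ u, ∑ φ : Fin m → V, g u (φ j) (φ k) := by rw [h1]; ring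
    _ = (Fintype.card V : ℝ) ^ m * ∑ u, ∑ v, ∑ w, g u v w := by
        rw [Finset.mul_sum, Finset.mul_sum]
        exact Finset.sum_congr rfl fun u _ => two_pt hjk (g u)

end

/-- ordered pairs -/
lemma count_two (m : ℕ) (hm : 1 ≤ m) : ∑ i : Fin m, ∑ j : Fin m, (if i ≠ j then (1 : ℝ) else 0) = (m : ℝ) * (m - 1) := by
  have h1 : ∀ i : Fin m, ∑ j : Fin m, (if i ≠ j then (1 : ℝ) else 0) = (m : ℝ) - 1 := by
    intro i
    have h2 : ∑ j : Fin m, (if i ≠ j then (1 : ℝ) else 0) = ∑ j : Fin m, ((1 : ℝ) - if i = j then (1 : ℝ) else 0) := by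
      refine Finset.sum_congr rfl fun j _ => ?_
      by_cases h : i = j <;> simp [h]
    rw [h2, Finset.sum_sub_distrib]
    simp
  simp only [h1]
  simp
  ring

/-- ordered triples -/
lemma count_three (m : ℕ) (hm : 2 ≤ m) : ∑ i : Fin m, ∑ j : Fin m, ∑ k : Fin m,
    (if i ≠ j ∧ i ≠ k ∧ j ≠ k then (1 : ℝ) else 0) = (m : ℝ) * (m - 1) * (m - 2) := by
  have h1 : ∀ i j : Fin m, ∑ k : Fin m, (if i ≠ j ∧ i ≠ k ∧ j ≠ k then (1 : ℝ) else 0) =
      (if i ≠ j then (1 : ℝ) else 0) * ((m : ℝ) - 2) := by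
    intro i j
    by_cases hij : i = j
    · simp [hij]
    · have h2 : ∑ k : Fin m, (if i ≠ j ∧ i ≠ k ∧ j ≠ k then (1 : ℝ) else 0) =
          ∑ k : Fin m, ((1 : ℝ) - (if i = k then (1 : ℝ) else 0) - if j = k then (1 : ℝ) else 0) := by
        refine Finset.sum_congr rfl fun k _ => ?_
        by_cases h3 : i = k
        · have h4 : j ≠ k := fun h => hij (h3.trans h.symm)
          simp [h3, h4]
        · by_cases h4 : j = k
          · simp [h3, h4]
          · simp [hij, h3, h4]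
      rw [h2, Finset.sum_sub_distrib, Finset.sum_sub_distrib]
      simp [hij]
      ring
  simp only [h1]
  rw [← count_two m (by omega), Finset.sum_mul]
  refine Finset.sum_congr rfl fun i _ => ?_
  rw [Finset.sum_mul]

end Pool.Agent.Run7.h774.BL
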